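import Pool.Agent.Helper40.AC.Stmts

/-! Packet AC P01 -/

set_option autoImplicit false

open scoped ContDiff Topology
open MeasureTheory

namespace Pool.Agent.Helper48.AC

open Pool.Agent.Helper40.AC

theorem diffAt (f : BB) (x : Ang) : DifferentiableAt ℝ f.fn x :=
  f.smooth.differentiable (by simp) x

theorem pd_fn (j : Fin 4) (f : BB) (x : Ang) :
    (pd j f).fn x = fderiv ℝ f.fn x (Pi.single j 1) := rfl

theorem pd_comm (i j : Fin 4) (f : BB) : pd i (pd j f) = pd j (pd i f) := by
  have key : ∀ (a b : Fin 4) (x : Ang), (pd a (pd b f)).fn x =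
      (fderiv ℝ (fderiv ℝ f.fn) x (Pi.single a 1)) (Pi.single b 1) := by
    intro a b x
    rw [pd_fn]
    have h1 : (pd b f).fn = fun y => fderiv ℝ f.fn y (Pi.single b 1) := rfl
    have h2 : DifferentiableAt ℝ (fderiv ℝ f.fn) x :=
      (f.smooth.fderiv_right (m := ∞) (by norm_cast)).differentiable (by simp) x
    rw [h1, fderiv_clm_apply h2 (differentiableAt_const _)]
    simp
  apply BB.ext
  intro x
  rw [key, key]
  have h2 : (2 : WithTop ℕ∞) ≤ ∞ := WithTop.coe_le_coe.mpr (le_top : (2 : ℕ∞) ≤ ⊤)
  have h := (f.smooth.contDiffAt (x := x)).isSymmSndFDerivAt (by simpa using h2)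
  exact h _ _

theorem ico (f : BB) : IntegrableOn f.fn cube := by
  apply ContinuousOn.integrableOn_compact
  · exact isCompact_Icc
  · exact f.smooth.continuous.continuousOn

theorem face_eq (j : Fin 4) (f : BB) (y : Fin 3 → ℝ) :
    f.fn (Fin.insertNth (α := fun _ => ℝ) j (2 * Real.pi) y) =
      f.fn (Fin.insertNth (α := fun _ => ℝ) j (0 : ℝ) y) := by
  rw [← f.periodic (Fin.insertNth (α := fun _ => ℝ) j (0 : ℝ) y) j]
  congr 1
  funext i
  refine Fin.succAboveCases j ?_ (fun l => ?_) i
  · simp
  · simp [Fin.succAbove_ne]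

theorem int_zero (j : Fin 4) (f : BB) : ∫ x in cube, (pd j f).fn x = 0 := by
  have hle : (0 : Fin 4 → ℝ) ≤ fun _ => 2 * Real.pi := by
    intro i
    simp only [Pi.zero_apply]
    positivity
  have h := integral_divergence_of_hasFDerivAt_off_countable' (E := ℂ) (n := 3)
    (0 : Fin 4 → ℝ) (fun _ => 2 * Real.pi) hle
    (fun i => if i = j then f.fn else fun _ => 0)
    (fun i x => if i = j then fderiv ℝ f.fn x else 0) ∅ Set.countable_empty
    (by
      intro i
      by_cases h : i = j
      · simp only [h, if_true]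
        exact f.smooth.continuous.continuousOn
      · simp only [h, if_false]
        exact continuousOn_const)
    (by
      intro x _ i
      by_cases h : i = j
      · simp only [h, if_true]
        exact (diffAt f x).hasFDerivAt
      · simp only [h, if_false]
        exact hasFDerivAt_const _ _)
    (by
      have h1 : (fun x : Fin 4 → ℝ => ∑ i : Fin 4,
          ((if i = j then fderiv ℝ f.fn x else (0 : (Fin 4 → ℝ) →L[ℝ] ℂ))) (Pi.single i 1)) =
          (pd j f).fn := by
        funext x
        rw [Finset.sum_eq_single j]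
        · simp [pd_fn]
        · intro i _ hi
          simp [hi]
        · simp
      rw [h1]
      exact ico (pd j f))
  have h1 : (fun x : Fin 4 → ℝ => ∑ i : Fin 4,
      ((if i = j then fderiv ℝ f.fn x else (0 : (Fin 4 → ℝ) →L[ℝ] ℂ))) (Pi.single i 1)) =
      (pd j f).fn := by
    funext x
    rw [Finset.sum_eq_single j]
    · simp [pd_fn]
    · intro i _ hi
      simp [hi]
    · simp
  rw [h1] at h
  show ∫ x in Set.Icc 0 (fun _ => 2 * Real.pi), (pd j f).fn x = 0
  rw [h]
  apply Finset.sum_eq_zero
  intro i _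
  by_cases hij : i = j
  · subst hij
    simp only [if_true, Pi.zero_apply]
    rw [sub_eq_zero]
    congr 1
    funext y
    exact face_eq i f y
  · simp [hij]

theorem pd_ok : S_PD := by
  refine ⟨?_, ?_, ?_, ?_, ?_, ?_⟩
  · intro j f g
    apply BB.ext
    intro x
    have h : (f + g).fn = f.fn + g.fn := rfl
    rw [BB.fn_add, pd_fn, pd_fn, pd_fn, h, fderiv_add (diffAt f x) (diffAt g x)]
    rfl
  · intro j f g
    apply BB.ext
    intro x
    have h : (f * g).fn = f.fn * g.fn := rfl
    rw [BB.fn_add, BB.fn_mul, BB.fn_mul, pd_fn, pd_fn, pd_fn, h,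
      fderiv_mul (diffAt f x) (diffAt g x)]
    simp only [add_apply, smul_apply, smul_eq_mul]
    ring
  · intro i j f
    exact pd_comm i j f
  · intro j f
    exact int_zero j f
  · intro j c
    apply BB.ext
    intro x
    rw [pd_fn]
    have : (algebraMap ℂ BB c).fn = fun _ => c := rfl
    rw [this]
    simp
  · exact ico

end Pool.Agent.Helper48.AC
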